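import Pool.Agent.helper36.PT.Spec

/-!
Row PT MEA: exact mean value of a divisor sum of small level.
-/

set_option autoImplicit false

namespace Pool.Agent.PT

open Finset Pool.Agent.helper71.AA

lemma MEA_az_sub (Q : Finset ℕ) (p : ℕ) (hp : p.Prime) (a : ℤ) : Az Q p a ⊆ Q.erase p := by
  intro l hl
  unfold Az at hl
  rw [mem_filter] at hl
  rw [mem_erase]
  refine ⟨?_, hl.1⟩
  rintro rfl
  have h1 : (l : ℤ) ∣ a * (l : ℤ) ^ 2 := Dvd.dvd.mul_left (dvd_pow_self _ (by norm_num)) _
  have h2 : (l : ℤ) ∣ 1 := by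
    have h3 := dvd_sub h1 hl.2
    have h4 : a * (l : ℤ) ^ 2 - (a * (l : ℤ) ^ 2 - 1) = 1 := by ring
    rwa [h4] at h3
  have h3 : l ∣ 1 := by exact_mod_cast h2
  exact hp.one_lt.ne' (Nat.dvd_one.1 h3)

lemma MEA_pr (D : Finset ℕ) : ((∏ l ∈ D, l : ℕ) : ℝ) = pr D := by
  unfold pr
  rw [Nat.cast_prod]

theorem MEA (h1 : CLS_stmt) (h2 : CEX_stmt) : MEA_stmt := by
  intro w a₀ N Q p F ξ L hN hQ hp hF hL hD
  have hN0 : 0 < N := by linarith
  have hW : 0 < primorial w := primorial_pos w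
  have hWr : (0 : ℝ) < (primorial w : ℝ) := by exact_mod_cast hW
  -- expansion
  have e1 : (fun a : ℤ => if L ⊆ Az Q p a then F (Az Q p a) else 0) =
      fun a : ℤ => ∑ D ∈ (Q.erase p).powerset, if D ∪ L ⊆ Az Q p a then ξ D else 0 := by
    funext a
    by_cases hLa : L ⊆ Az Q p a
    · rw [if_pos hLa, hF _ (MEA_az_sub Q p hp a)]
      have h3 : (Az Q p a).powerset = (Q.erase p).powerset.filter (fun D => D ∪ L ⊆ Az Q p a) := by
        ext D
        rw [mem_powerset, mem_filter, mem_powerset]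
        constructor
        · intro h
          exact ⟨h.trans (MEA_az_sub Q p hp a), union_subset h hLa⟩
        · intro h
          exact subset_union_left.trans h.2
      rw [h3, sum_filter]
    · rw [if_neg hLa]
      symm
      refine sum_eq_zero fun D _ => ?_
      rw [if_neg]
      intro h
      exact hLa (subset_union_right.trans h)
  rw [e1, EN_sum _ _ (fun D _ => ⟨|ξ D|, fun a => by
    split_ifs
    · exact le_rfl
    · rw [abs_zero]; exact abs_nonneg _⟩) _ _ _ hN0, mul_sum]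
  refine sum_congr rfl fun D hDm => ?_
  rw [mem_powerset] at hDm
  by_cases hξ : ξ D = 0
  · rw [hξ]
    simp only [ite_self, zero_div, mul_zero]
    unfold EN
    simp
  · have hDL : D ∪ L ⊆ Q.erase p := union_subset hDm hL
    obtain ⟨⟨c, hc⟩, hall⟩ := (h2 w a₀ Q p p hQ hp hp (D ∪ L) hDL ∅ (empty_subset _)).1
      (by rw [inter_empty]; exact empty_subset _) |>.imp_left id
    have hiff := hall c hc
    rw [union_empty] at hiff
    have hpos : 0 < ∏ l ∈ D ∪ L, l := by
      refine prod_pos fun l hl => ?_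
      exact (hQ l (mem_of_mem_erase (hDL hl))).1.pos
    have hm : 0 < primorial w * ∏ l ∈ D ∪ L, l := Nat.mul_pos hW hpos
    have hmr : ((primorial w * ∏ l ∈ D ∪ L, l : ℕ) : ℝ) = (primorial w : ℝ) * pr (D ∪ L) := by
      rw [Nat.cast_mul, MEA_pr]
    have hcls := h1 N (primorial w * ∏ l ∈ D ∪ L, l) c hN hm
    rw [Fr_zero N _ hm hN0 (by rw [hmr]; exact hD D hDm hξ), add_zero] at hcls
    have hcls' := Complex.ofReal_injective hcls
    have h3 : EN (primorial w) a₀ N (fun a => if D ∪ L ⊆ Az Q p a then ξ D else 0) =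
        ∑' a : ℤ, (if ((primorial w * ∏ l ∈ D ∪ L, l : ℕ) : ℤ) ∣ a - c then Fz N a else 0) *
          ξ D := by
      unfold EN
      refine tsum_congr fun a => ?_
      by_cases h4 : ((primorial w * ∏ l ∈ D ∪ L, l : ℕ) : ℤ) ∣ a - c
      · obtain ⟨h5, h6, _⟩ := (hiff a).2 h4
        rw [if_pos h4, if_pos h5]
        show Fz N a * (if D ∪ L ⊆ Az Q p a then ξ D else 0) = _
        rw [if_pos h6]
      · rw [if_neg h4, zero_mul]
        by_cases h5 : ((primorial w : ℕ) : ℤ) ∣ a - a₀
        · rw [if_pos h5]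
          show Fz N a * (if D ∪ L ⊆ Az Q p a then ξ D else 0) = 0
          rw [if_neg, mul_zero]
          intro h6
          exact h4 ((hiff a).1 ⟨h5, h6, empty_subset _⟩)
        · rw [if_neg h5]
    rw [h3, tsum_mul_right, hcls', hmr]
    have h4 : pr (D ∪ L) ≠ 0 := by
      rw [← MEA_pr]
      exact_mod_cast hpos.ne'
    field_simp

end Pool.Agent.PT
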